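import Pool.Agent.Y121.AHS.Defs

/-!
# Numbers of absolutely Hodge classes on products: definitions
-/

universe u v

namespace Pool.Agent.L5helper28.HC

open Pool.Agent.Y121.AHS Pool.Agent.H914

/-- The linear maps. -/
abbrev Lin (K A B : Type) [Field K] [Ring A] [Algebra K A] [Ring B] [Algebra K B] : Type :=
  A →ₗ[K] B

/-- The bilinear forms. -/
abbrev Form (K A : Type) [Field K] [Ring A] [Algebra K A] : Type := LinearMap.BilinForm K A

/-- The ring `A` is not zero. -/
def IsNonzero (A : Type) [Ring A] : Prop := (1 : A) ≠ 0

section

variable {K A B : Type} [Field K] [Ring A] [Algebra K A] [Ring B] [Algebra K B]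

/-- The algebra `B` is generated by the set `s`. -/
def GeneratedBy (K : Type) {B : Type} [Field K] [Ring B] [Algebra K B] (s : Set B) : Prop :=
  Algebra.adjoin K s = ⊤

/-- The maximal number of linearly independent elements with the property `S`. -/
noncomputable def number (K : Type) {A : Type} [Field K] [Ring A] [Algebra K A] (S : A → Prop) : ℕ :=
  Module.finrank K (Submodule.span K {c | S c})

/-- The commutator. -/
def commutator (D E : Lin K A A) : Lin K A A := D ∘ₗ E - E ∘ₗ D

/-- The linear combination `r D + s E`. -/
def combination (r s : K) (D E : Lin K A A) : Lin K A A := r • D + s • E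

/-- The image of `f`. -/
def image (f : Lin K A B) : Set B := Set.range f

variable [Algebra K ℂ]

/-- The element `∑ z i ⊗ a i` of the complexification. -/
noncomputable def el {m : ℕ} (z : Fin m → ℂ) (a : Fin m → A) : Ext K ℂ A :=
  ∑ i, extSm K ℂ (z i) (extEm K ℂ (a i))

/-- The number `∑ z i w j ψ (a i, b j)`: the value of the complexification of the bilinear form `ψ` on
the elements `∑ z i ⊗ a i` and `∑ w j ⊗ b j`. -/
noncomputable def form (ψ : Form K A) {m n : ℕ} (z : Fin m → ℂ) (a : Fin m → A) (w : Fin n → ℂ)
    (b : Fin n → A) : ℂ :=
  ∑ i, ∑ j, z i * w j * algebraMap K ℂ (ψ (a i) (b j))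

end

/-- An algebra `A` over the field `K`, relations `pq p q x` for the elements `x` of its complexification
(`x` is of type `(p, q)`) and a number `dim`: in the intended use `A = H(X, ℚ)` and `dim = dim X` for a
smooth projective complex variety `X`. -/
structure Alg (K : Type) [Field K] [Algebra K ℂ] where
  A : Type
  [ring : Ring A]
  [alg : Algebra K A]
  pq : ℤ → ℤ → Ext K ℂ A → Prop
  dim : ℕ

attribute [instance] Alg.ring Alg.alg

variable {K : Type} [Field K] [Algebra K ℂ]

/-- The linear maps. -/
abbrev Maps (M N : Alg K) : Type := Lin K M.A N.A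

/-- There is a rational bilinear form `ψ` which is a polarisation: only the zero element is of type
`(p, q)` unless `0 ≤ p, q ≤ dim`, the complex conjugation exchanges the types `(p, q)` and `(q, p)`, the
complexification of `ψ` vanishes on pairs of elements of types `(p, q)` and `(r, s) ≠ (q, p)`, and
`i ^ (p - q) ψ(x, x̄)` is a positive real number for all `x ≠ 0` of type `(p, q)`. -/
def Polarised (M : Alg K) : Prop :=
  (∀ p q x, M.pq p q x → x ≠ extSm K ℂ 0 x → 0 ≤ p ∧ p ≤ M.dim ∧ 0 ≤ q ∧ q ≤ M.dim) ∧
  ∃ ψ : Form K M.A, ∀ (p q : ℤ) (m : ℕ) (z : Fin m → ℂ) (a : Fin m → M.A), M.pq p q (el z a) →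
    M.pq q p (el (fun i => star (z i)) a) ∧
    (∀ (r s : ℤ) (n : ℕ) (w : Fin n → ℂ) (b : Fin n → M.A), M.pq r s (el w b) → (r ≠ q ∨ s ≠ p) →
      form ψ z a w b = 0) ∧
    (el z a ≠ extSm K ℂ 0 (el z a) →
      ∃ r : ℝ, 0 < r ∧ Complex.I ^ (p - q) * form ψ z a (fun i => star (z i)) a = r)

/-- The linear combination with the complex coefficients `c i` of the maps `f i` acts on the elements
of type `(p, q)` of the complexification as multiplication by `p - q`. -/
def ActsAsHodge (M : Alg K) {m : ℕ} (c : Fin m → ℂ) (f : Fin m → Maps M M) : Prop :=
  ∀ p q x, M.pq p q x →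
    ∑ i, extSm K ℂ (c i) (extMap K ℂ (f i) x) = extSm K ℂ ((p - q : ℤ) : ℂ) x

/-- The tuples of linear maps. -/
abbrev Tup {n : ℕ} (M : Fin n → Alg K) : Type := ∀ a, Maps (M a) (M a)

variable {n : ℕ} {M : Fin n → Alg K}

/-- The tuples with the property `g` form a rational Lie algebra: `g` is not empty and closed under
commutators and linear combinations. -/
def IsLie (g : Tup M → Prop) : Prop :=
  (∃ D, g D) ∧ ∀ D, g D → ∀ E, g E → g (fun a => commutator (D a) (E a)) ∧
    ∀ r s : K, g fun a => combination r s (D a) (E a)

/-- Some linear combination with complex coefficients of elements of `g` acts on the elements of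
type `(p, q)` of the complexification of every `M a` as multiplication by `p - q`. -/
def ContainsHodge (g : Tup M → Prop) : Prop :=
  ∃ (m : ℕ) (c : Fin m → ℂ) (f : Fin m → Tup M), (∀ i, g (f i)) ∧
    ∀ a, ActsAsHodge (M a) c fun i => f i a

/-- The tuple `D` belongs to the Lie algebra of the Hodge group of `M 0 ⊕ … ⊕ M (n - 1)`: the smallest
rational Lie algebra whose complexification contains the operator which multiplies the elements
of type `(p, q)` by `p - q`. -/
def InHodgeLie (D : Tup M) : Prop := ∀ g : Tup M → Prop, IsLie g → ContainsHodge g → g D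

/-- The linear map `D` belongs to the Lie algebra of the Hodge group of `M`. -/
def hodgeLie (M : Alg K) (D : Maps M M) : Prop := InHodgeLie (M := fun _ : Fin 1 => M) fun _ => D

/-- The Lie algebra of the linear maps with the property `h` is perfect: every property of linear
maps which is closed under linear combinations and holds for the commutators of the elements of `h`
holds for all elements of `h`. -/
def IsPerfect {M : Alg K} (h : Maps M M → Prop) : Prop :=
  ∀ I : Maps M M → Prop, (∀ D, I D → ∀ E, I E → ∀ r s : K, I (combination r s D E)) →
    (∀ D, h D → ∀ E, h E → I (commutator D E)) → ∀ D, h D → I D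

/-- The Lie algebra of the Hodge group of the sum of `n` different members of the family is the product
of the Lie algebras of the Hodge groups of these members. -/
def IndependentOn {ι : Type v} (M : ι → Alg K) (n : ℕ) : Prop :=
  ∀ e : Fin n → ι, Function.Injective e → ∀ D : Tup fun a => M (e a),
    (∀ a, hodgeLie (M (e a)) (D a)) → InHodgeLie D

/-- The family is independent: the Hodge group of the sum of finitely many different members is the
product of the Hodge groups of these members. -/
def Independent {ι : Type v} (M : ι → Alg K) : Prop := ∀ n, IndependentOn M n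

/-- The family is pairwise independent: the Hodge groups of the members are semisimple (their Lie
algebras are perfect), and the Hodge group of the sum of two different members is the product of the
two Hodge groups. -/
def PairwiseIndependent {ι : Type v} (M : ι → Alg K) : Prop :=
  (∀ i, IsPerfect (hodgeLie (M i))) ∧ IndependentOn M 2

/-- The algebra `N` is generated by the images of morphisms of Hodge structures up to Tate twists
(`f a` maps the elements of type `(p, q)` to elements of type `(p + c a, q + c a)`) from the `M a`. -/
def Generates (M : Fin n → Alg K) (N : Alg K) : Prop :=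
  ∃ (f : ∀ a, Maps (M a) N) (c : Fin n → ℤ),
    (∀ a p q x, (M a).pq p q x → N.pq (p + c a) (q + c a) (extMap K ℂ (f a) x)) ∧
    GeneratedBy K (⋃ a, image (f a))

variable {k : Type u} [Field k] {𝒱 : VarClass k} {ops : CycleOps 𝒱} (T : HodgeTheory ops)

/-- The cohomology of `X`. -/
noncomputable def coh (X : 𝒱.Obj) : Alg T.W.K where
  A := T.W.H X
  pq := IsType T.pq
  dim := X.dim

/-- The smallest class of varieties which contains the varieties in `S`, is closed under products,
and contains all varieties whose cohomology algebra is generated by the images of morphisms of Hodge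
structures (up to Tate twists) from the cohomology of finitely many varieties in the class. -/
inductive Built (S : Set 𝒱.Obj) : 𝒱.Obj → Prop
  | of {X : 𝒱.Obj} : X ∈ S → Built S X
  | prod {X Y : 𝒱.Obj} : Built S X → Built S Y → Built S (X.prod Y)
  | gen {n : ℕ} {X : Fin n → 𝒱.Obj} {Y : 𝒱.Obj} : (∀ a, Built S (X a)) →
      Generates (fun a => coh T (X a)) (coh T Y) → Built S Y

/-- The total Betti number of `X`. -/
noncomputable def betti (X : 𝒱.Obj) : ℕ := number T.W.K fun _ : T.W.H X => True

/-- The number of linearly independent Hodge classes on `X`. -/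
noncomputable def hodgeNumber (X : 𝒱.Obj) : ℕ := number T.W.K fun c => ∃ j, IsHodge T X j c

variable {T} (D : Conjugates T)

/-- The number of linearly independent absolutely Hodge classes on `X`. -/
noncomputable def absNumber (X : 𝒱.Obj) : ℕ := number T.W.K fun c => ∃ j, IsAbsHodge D X j c

/-- All Hodge classes on `X` are absolutely Hodge. -/
def AllAbsolute (X : 𝒱.Obj) : Prop := ∀ j c, IsHodge T X j c → IsAbsHodge D X j c

/-- The numbers of linearly independent Hodge classes and of linearly independent absolutely Hodge
classes on `P × Y` are the products of the number of linearly independent Hodge classes on `P` and of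
the corresponding numbers for `Y`. -/
def CountLaw (P Y : 𝒱.Obj) : Prop :=
  hodgeNumber T (P.prod Y) = hodgeNumber T P * hodgeNumber T Y ∧
    absNumber D (P.prod Y) = hodgeNumber T P * absNumber D Y

end Pool.Agent.L5helper28.HC
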