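import Pool.Agent.L5helper28.HB.Dim
import Pool.Agent.L5helper28.HC.Defs
import Pool.Agent.L5helper28.HA.Main
import Pool.Agent.Y121.AHS.Conv

/-!
# Numbers of absolutely Hodge classes on products
-/

set_option autoImplicit false
set_option linter.unusedSectionVars false

open CategoryTheory AlgebraicGeometry TensorProduct

universe u v

namespace Pool.Agent.L5helper28.HC

open Module
open Pool.Agent.H914 Pool.Agent.H914.VarClass Pool.Agent.H914.VarClass.Obj
  Pool.Agent.H914.WeilCohomology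
open Pool.Agent.Y121 Pool.Agent.Y121.AHS Pool.Agent.N996 Pool.Agent.N996.FP
open Pool.Agent.Y133.Half (ClassPred)
open Pool.Agent.L5helper28.CA (AllIn prod_in snd_in split_in sum_of dim_prod)
open Pool.Agent.L5helper28.IF (Spl spH)
open Pool.Agent.L5helper28.HA (ne_iff)

noncomputable section

variable {k : Type u} [Field k] {𝒱 : VarClass k} {ops : CycleOps 𝒱} {T : HodgeTheory ops}
  {P Y X : 𝒱.Obj}

theorem polarised_of (h : Polarised (coh T X)) : CA.Polarised T X := by
  obtain ⟨h1, ψ, h2⟩ := h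
  refine ⟨ψ, ?_, ?_, ?_, ?_⟩
  · intro p q x hx h0
    exact h1 p q x hx ((ne_iff x).2 h0)
  · intro p q x hx
    obtain ⟨m, z, a, rfl⟩ := HD.exists_el (K := T.W.K) (A := T.W.H X) x
    have h3 := (h2 p q m z a hx).1
    have h4 : conjH T (el (K := T.W.K) (A := T.W.H X) z a) =
      el (K := T.W.K) (A := T.W.H X) (fun i => star (z i)) a :=
      HD.conj_el (K := T.W.K) (A := T.W.H X) T.rat z a
    exact (congrArg (fun t => IsType T.pq q p t) h4).mpr h3
  · intro p q r s x y hx hy hn
    obtain ⟨m, z, a, rfl⟩ := HD.exists_el (K := T.W.K) (A := T.W.H X) x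
    obtain ⟨n, w, b, rfl⟩ := HD.exists_el (K := T.W.K) (A := T.W.H X) y
    exact (HD.bil_el (K := T.W.K) (A := T.W.H X) ψ z a w b).trans
      ((h2 p q m z a hx).2.1 r s n w b hy hn)
  · intro p q x hx h0
    obtain ⟨m, z, a, rfl⟩ := HD.exists_el (K := T.W.K) (A := T.W.H X) x
    obtain ⟨r, hr, h3⟩ := (h2 p q m z a hx).2.2 ((ne_iff _).2 h0)
    refine ⟨r, hr, ?_⟩
    rw [← h3]
    refine congrArg (fun t => Complex.I ^ (p - q) * t) ?_
    have h4 : conjH T (el (K := T.W.K) (A := T.W.H X) z a) =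
      el (K := T.W.K) (A := T.W.H X) (fun i => star (z i)) a :=
      HD.conj_el (K := T.W.K) (A := T.W.H X) T.rat z a
    have h5 : (HD.el (K := T.W.K) (A := T.W.H X) z a) = el (K := T.W.K) (A := T.W.H X) z a := rfl
    rw [h5, h4]
    exact HD.bil_el (K := T.W.K) (A := T.W.H X) ψ z a (fun i => star (z i)) a

/-! ### Independent families -/

theorem inHodgeLie_iff {n : ℕ} {X : Fin n → 𝒱.Obj} {D : Tup fun a => coh T (X a)} :
    InHodgeLie D ↔ Fam.InHodgeLie (fun a => T.pq (X a)) D := Iff.rfl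

theorem independent_iff {ι : Type v} {X : ι → 𝒱.Obj} :
    Independent (fun i => coh T (X i)) ↔ Fam.Independent T X := Iff.rfl

theorem pairwise_of {ι : Type v} {X : ι → 𝒱.Obj} (h : PairwiseIndependent fun i => coh T (X i)) :
    CA.PairwiseIndependent T X :=
  ⟨fun i I h1 h2 => h.1 i I h1 h2, fun e he D hD => h.2 e he D hD⟩

theorem built_of {S : Set 𝒱.Obj} (h : Built T S X) : Fam.Built T S X := by
  induction h with
  | of h => exact .of h
  | prod _ _ h1 h2 => exact .prod h1 h2
  | gen _ h2 h1 =>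
    obtain ⟨f, c, h3, h4⟩ := h2
    exact .gen _ _ f c h1 h3 h4

theorem splitting {ι : Type v} {X : ι → 𝒱.Obj} (hX : ∀ i, Polarised (coh T (X i)))
    (h : Independent (fun i => coh T (X i)) ∨ PairwiseIndependent fun i => coh T (X i)) {Z : 𝒱.Obj}
    (hZ : Polarised (coh T Z)) : ∃ S : Set ι, S.Finite ∧ 2 * S.ncard ≤ HA.trans T Z ∧
      ∀ P Y : 𝒱.Obj, Built T (X '' Sᶜ) P → Built T (insert Z (X '' S)) Y → Spl T P Y := by
  obtain ⟨S, h1, h2, h3⟩ := CA.splitting (T := T) (X := X) (fun i => polarised_of (hX i))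
    (by
      rcases h with h | h
      · exact .inl (independent_iff.1 h)
      · exact .inr (.inr (pairwise_of h))) (polarised_of hZ)
  exact ⟨S, h1, h2, fun P Y hP hY => h3 P Y (built_of hP) (built_of hY)⟩

variable (D : Conjugates T)

theorem allAbs_iff : AllAbsolute D X ↔ AllIn T (AH.absPred (toD D)) X :=
  forall_congr' fun _ => forall_congr' fun _ => imp_congr_right fun _ => isAbsHodge_iff.symm

theorem spanned_abs : Submodule.span T.W.K {c : T.W.H X | ∃ j, IsAbsHodge D X j c} =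
    (AH.absPred (toD D)).sp X := by
  have h : {c : T.W.H X | ∃ j, IsAbsHodge D X j c} = {c | ∃ j, (AH.absPred (toD D)).P X j c} := by
    ext c
    exact exists_congr fun j => isAbsHodge_iff.symm
  rw [h]
  rfl

theorem trans_le {n : ℕ} (h : 2 * n ≤ HA.trans T X) :
    2 * n + hodgeNumber T X ≤ betti T X := by
  have h0 : betti T X = finrank T.W.K (T.W.H X) := by
    rw [betti, number]
    have : ({c | True} : Set (T.W.H X)) = Set.univ := rfl
    rw [this, Submodule.span_univ, finrank_top]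
  rw [h0]
  have h1 := (Submodule.span T.W.K {c : T.W.H X | ∃ j, IsHodge T X j c}).finrank_quotient_add_finrank
  rw [← h1]
  exact Nat.add_le_add_right h _

/-- **The theorem.** -/
theorem main {ι : Type v} (X : ι → 𝒱.Obj) (hX : ∀ i, Polarised (coh T (X i)))
    (h : Independent (fun i => coh T (X i)) ∨ PairwiseIndependent fun i => coh T (X i)) (Z : 𝒱.Obj)
    (hZ : Polarised (coh T Z)) :
    ∃ S : Set ι, S.Finite ∧ 2 * S.ncard + hodgeNumber T Z ≤ betti T Z ∧
      ∀ P Y : 𝒱.Obj, Built T (X '' Sᶜ) P → Built T (insert Z (X '' S)) Y →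
        IsNonzero (T.W.H P) → AllAbsolute D P →
          CountLaw D P Y ∧ (AllAbsolute D (P.prod Y) ↔ AllAbsolute D Y) := by
  obtain ⟨S, hS, h2, h3⟩ := splitting hX h hZ
  refine ⟨S, hS, trans_le h2, fun P Y hP hY h1 hPa => ?_⟩
  have hs := h3 P Y hP hY
  have hPa' := (allAbs_iff D).1 hPa
  refine ⟨⟨?_, ?_⟩, fun h => ?_, fun h => ?_⟩
  · exact dim_prod (Q := AH.hodgePred (toH T)) (fun _ _ _ h => h) hs (fun _ _ h => h)
  · unfold absNumber number
    rw [spanned_abs D (X := P.prod Y), spanned_abs D (X := Y)]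
    exact dim_prod (Q := AH.absPred (toD D)) (fun _ _ _ h => (isAbsHodge_iff.1 h).1) hs hPa'
  · rw [allAbs_iff]
    exact snd_in h1 ((allAbs_iff D).1 h)
  · rw [allAbs_iff]
    exact prod_in hs hPa' ((allAbs_iff D).1 h)

end

end Pool.Agent.L5helper28.HC
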